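import Pool.Agent.W551.FolQ.Gr

/-!
# Folner functions of the groups having a Grigorchuk group `G_w` as a quotient of a subgroup
-/

set_option autoImplicit false

namespace Pool.Agent.Results.MP_0d61b9_al.GrigorchukSubquotients

/-! ### The groups `G_w`.  The letters `0`, `1` of the binary tree are `false`, `true`. -/

/-- `a(xv) = (1-x)v` -/
def aMap : List Bool → List Bool
  | [] => []
  | x :: v => (!x) :: v

/-- `ω_0 = (a,a,1)`, `ω_1 = (a,1,a)`, `ω_2 = (1,a,a)` -/
def omega : Fin 3 → Fin 3 → (List Bool → List Bool)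
  | 0 => ![aMap, aMap, id]
  | 1 => ![aMap, id, aMap]
  | 2 => ![id, aMap, aMap]

/-- the maps `b_w`, `c_w`, `d_w`, for `j = 0, 1, 2` -/
def bcd (j : Fin 3) : List Bool → (ℕ → Fin 3) → List Bool
  | [], _ => []
  | false :: v, w => false :: omega (w 0) j v
  | true :: v, w => true :: bcd j v (fun n => w (n + 1))

theorem aMap_invol : Function.Involutive aMap := by
  rintro (_ | ⟨x, v⟩) <;> simp [aMap]

theorem omega_invol (i j : Fin 3) : Function.Involutive (omega i j) := by
  intro v
  fin_cases i <;> fin_cases j <;> first | exact aMap_invol v | rfl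

theorem bcd_invol (j : Fin 3) (w : ℕ → Fin 3) : Function.Involutive fun v => bcd j v w := by
  intro v
  induction v generalizing w with
  | nil => rfl
  | cons x v ih =>
    cases x
    · change false :: omega (w 0) j (omega (w 0) j v) = _
      rw [omega_invol]
    · change true :: bcd j (bcd j v _) _ = _
      exact congrArg _ (ih _)

/-- the generator `a`, as a permutation of the finite binary words -/
def a : Equiv.Perm (List Bool) := aMap_invol.toPerm

/-- the generators `b_w`, `c_w`, `d_w` -/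
def gen (w : ℕ → Fin 3) (j : Fin 3) : Equiv.Perm (List Bool) := (bcd_invol j w).toPerm

/-- the four generators -/
def gens (w : ℕ → Fin 3) : Set (Equiv.Perm (List Bool)) := {a, gen w 0, gen w 1, gen w 2}

/-- the group `G_w = ⟨a, b_w, c_w, d_w⟩` -/
def G (w : ℕ → Fin 3) : Subgroup (Equiv.Perm (List Bool)) := Subgroup.closure (gens w)

/-- the runs of equal letters in `w` are of bounded length: for some `p` every window of `p`
consecutive places contains a place `k` with `w k ≠ w (k + 1)` -/
def BoundedRuns (w : ℕ → Fin 3) : Prop :=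
  ∃ p : ℕ, ∀ m : ℕ, ∃ k : ℕ, m ≤ k ∧ k < m + p ∧ w k ≠ w (k + 1)

/-- `n |∂F| ≤ |F|`, where `∂F = {g ∈ F : g s ∉ F for some s ∈ S}` -/
def IsFolner {Γ : Type*} [Group Γ] (S F : Finset Γ) (n : ℕ) : Prop :=
  n * Nat.card {g : Γ // g ∈ F ∧ ∃ s ∈ S, g * s ∉ F} ≤ F.card

/-! ### Comparison with the helper files -/

theorem a_eq : a = Pool.Agent.W380.Fol.a := by
  ext1 v
  rcases v with _ | ⟨x, v⟩ <;> rfl

theorem omega_eq (w : ℕ → Fin 3) (j : Fin 3) (v : List Bool) :
    omega (w 0) j v = if Fin.rev j = w 0 then v else Pool.Agent.W380.Fol.aFun v := by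
  have ha : ∀ v, aMap v = Pool.Agent.W380.Fol.aFun v := by
    rintro (_ | ⟨x, v⟩) <;> rfl
  generalize w 0 = i
  fin_cases i <;> fin_cases j <;> simp [omega, ha, Fin.rev, Fin.ext_iff]

theorem gen_eq (w : ℕ → Fin 3) (j : Fin 3) : gen w j = Pool.Agent.W380.Fol.B w (Fin.rev j) := by
  ext1 v
  change bcd j v w = Pool.Agent.W380.Fol.bFun v w (Fin.rev j)
  induction v generalizing w with
  | nil => rfl
  | cons x v ih =>
    cases x
    · change false :: omega (w 0) j v = false :: _
      rw [omega_eq]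
    · change true :: _ = true :: _
      rw [ih]

theorem gens_eq (w : ℕ → Fin 3) : gens w = Pool.Agent.W380.Fol.gens w := by
  unfold gens Pool.Agent.W380.Fol.gens
  rw [a_eq, gen_eq, gen_eq, gen_eq]
  ext x
  simp only [Set.mem_insert_iff, Set.mem_singleton_iff, Set.mem_ofPred_eq]
  constructor
  · rintro (h | h | h | h)
    · exact Or.inl h
    · exact Or.inr ⟨_, h⟩
    · exact Or.inr ⟨_, h⟩
    · exact Or.inr ⟨_, h⟩
  · rintro (h | ⟨y, h⟩)
    · exact Or.inl h
    · fin_cases y
      · exact Or.inr (Or.inr (Or.inr h))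
      · exact Or.inr (Or.inr (Or.inl h))
      · exact Or.inr (Or.inl h)

open Classical in
theorem isFolner_iff {Γ : Type*} [Group Γ] (S F : Finset Γ) (n : ℕ) :
    IsFolner S F n ↔ n * (F.filter fun z => ∃ s ∈ S, z * s ∉ F).card ≤ F.card := by
  unfold IsFolner
  have h : Nat.card {g : Γ // g ∈ F ∧ ∃ s ∈ S, g * s ∉ F} =
      (F.filter fun z => ∃ s ∈ S, z * s ∉ F).card := by
    refine Nat.subtype_card _ fun x => ?_
    rw [Finset.mem_filter]
  rw [h]

theorem G_eq (w : ℕ → Fin 3) : G w = Subgroup.closure (Pool.Agent.W380.Fol.gens w) := by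
  rw [G, gens_eq]

/-- **Theorem.** Let `Γ` be a group with a finite generating set `S`, and let some subgroup of `Γ`
have a Grigorchuk group `G_w` as a quotient, where `w` is not eventually constant. Then the Folner
function of `Γ` is not at most exponential: for every `C` there is `n` such that every finite
nonempty `F` with `n |∂F| ≤ |F|` has more than `C e^{C n}` elements. If the runs of equal letters
in `w` are bounded, then for some `c > 0` the Folner function of `Γ` is at least
`e^{c n log n} / C` for all `n`, so that it is asymptotically strictly larger than exponential. -/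
theorem result (w : ℕ → Fin 3) (hw : ¬ ∃ (i : Fin 3) (N : ℕ), ∀ n ≥ N, w n = i)
    {Γ : Type*} [Group Γ] (S : Finset Γ) (hS : Subgroup.closure (S : Set Γ) = ⊤)
    (H : Subgroup Γ) (π : H →* G w) (hπ : Function.Surjective π) :
    (∀ C : ℝ, ∃ n : ℕ, ∀ F : Finset Γ, F.Nonempty → IsFolner S F n →
      C * Real.exp (C * n) < (F.card : ℝ)) ∧
    (BoundedRuns w → ∃ c : ℝ, 0 < c ∧ ∃ C : ℝ, 0 < C ∧ ∀ n : ℕ, ∀ F : Finset Γ, F.Nonempty →
      IsFolner S F n → Real.exp (c * (n * Real.log n)) ≤ C * (F.card : ℝ)) ∧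
    (BoundedRuns w → ∃ c : ℝ, 0 < c ∧ ∃ C : ℝ, 0 < C ∧ ∀ n : ℕ, ∀ F : Finset Γ, F.Nonempty →
      IsFolner S F n → Real.exp (c * n) ≤ C * (F.card : ℝ)) := by
  classical
  obtain ⟨π', hπ'⟩ : ∃ π' : H →* Subgroup.closure (Pool.Agent.W380.Fol.gens w),
      Function.Surjective π' := by
    refine ⟨(MulEquiv.subgroupCongr (G_eq w)).toMonoidHom.comp π, ?_⟩
    exact (MulEquiv.subgroupCongr (G_eq w)).surjective.comp hπ
  have hmain : BoundedRuns w → ∃ c : ℝ, 0 < c ∧ ∃ C : ℝ, 0 < C ∧ ∀ n : ℕ, ∀ F : Finset Γ,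
      F.Nonempty → IsFolner S F n → Real.exp (c * (n * Real.log n)) ≤ C * (F.card : ℝ) := by
    rintro ⟨p, hp⟩
    obtain ⟨c, hc, C, hC, h⟩ := Pool.Agent.W551.FolQ.quant_G hp S hS H π' hπ'
    refine ⟨c, hc, C, hC, fun n F hF hb => h n F hF ?_⟩
    rw [isFolner_iff] at hb
    convert hb
  refine ⟨fun C => ?_, hmain, fun hr => ?_⟩
  · obtain ⟨n, hn⟩ := Pool.Agent.W551.FolQ.superexp w hw S hS H π' hπ' C
    refine ⟨n, fun F hF hb => hn F hF ?_⟩
    rw [isFolner_iff] at hb
    convert hb
  · obtain ⟨c, hc, C, hC, h⟩ := hmain hr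
    refine ⟨c, hc, C + Real.exp (c * 3), by positivity, fun n F hF hb => ?_⟩
    have hF1 : (1 : ℝ) ≤ F.card := by exact_mod_cast hF.card_pos
    have h1 := h n F hF hb
    have h2 := Real.exp_pos (c * 3)
    by_cases hn : n < 3
    · have h3 : Real.exp (c * n) ≤ Real.exp (c * 3) := by
        apply Real.exp_le_exp.2
        have : (n : ℝ) ≤ 3 := by exact_mod_cast hn.le
        gcongr
      nlinarith
    · push Not at hn
      have hn3 : (3 : ℝ) ≤ n := by exact_mod_cast hn
      have h3 : 1 ≤ Real.log n := by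
        rw [Real.le_log_iff_exp_le (by linarith)]
        have := Real.exp_one_lt_d9
        linarith
      have h4 : Real.exp (c * n) ≤ Real.exp (c * (n * Real.log n)) := by
        apply Real.exp_le_exp.2
        have : (n : ℝ) ≤ n * Real.log n := by nlinarith
        gcongr
      nlinarith

end Pool.Agent.Results.MP_0d61b9_al.GrigorchukSubquotients
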